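import Mathlib
import Pool.Agent.Q209.UlamNo

/-!
# A winning strategy in the Ulam game does not give one in the game `G*`

If there is an inaccessible cardinal above a measurable cardinal `lam`, then for the least
inaccessible cardinal `κ > lam` and every limit ordinal `γ < lam`, Player II has a winning strategy
in the Ulam game of length `γ` on `κ`, but none in the game `G*_γ` on `κ`.

Idea: on a set `κ ⊇ lam` Player II wins the Ulam game by looking only at the trace of the pieces on
`lam` and following a `lam`-complete ultrafilter. In the game `G*`, Player I can play at stage `0` a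
`κ`-complete algebra of size `κ` which has no uniform `κ`-complete ultrafilter at all: since there
is no inaccessible cardinal between `lam` and `κ`, every point of `κ` above `lam` has a short cofinal
sequence or is below the power of a smaller point, and the algebra is generated by sets that
describe these data; for a uniform `κ`-complete ultrafilter on it the least nonconstant function
among the relevant ones would be constant.
-/

set_option autoImplicit false

namespace Pool.Agent.Results.MP_0eb1a9_lc.UlamWithoutStar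

open Cardinal Set Q209.Ulam

universe u

/-- The `κ`-complete algebra generated by the family `G` of subsets of `κ`. -/
def generated (κ : Cardinal.{u}) (G : Set (Set κ.ord.ToType)) : Set (Set κ.ord.ToType) :=
  {a | ∀ A, IsAlgebra κ A → G ⊆ A → a ∈ A}

/-- The moves of Player I in a play of length `γ` of the Welch game on `κ` are legal: at each stage
he plays a `κ`-complete algebra of size `κ` that contains the singletons and the earlier moves. -/
def LegalMoves (κ : Cardinal.{u}) (γ : Ordinal.{u})
    (A : γ.ToType → Set (Set κ.ord.ToType)) : Prop :=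
  ∀ α, IsAlgebra κ (A α) ∧ #(A α) = κ ∧ (∀ x, {x} ∈ A α) ∧ ∀ β < α, A β ⊆ A α

/-- Player II has a winning strategy in the game `G*_γ` on `κ`. A strategy `σ` gives at stage `α`
an answer to the moves `A β`, `β ≤ α`, of Player I so far. It is winning if in every play with legal
moves of Player I all answers are legal (uniform `κ`-complete ultrafilters on the algebras played,
increasing) and the union of the answers extends to a uniform `κ`-complete ultrafilter on the
`κ`-complete algebra generated by the union of the algebras played. -/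
def WinsStar (κ : Cardinal.{u}) (γ : Ordinal.{u}) : Prop :=
  ∃ σ : (α : γ.ToType) → (Iic α → Set (Set κ.ord.ToType)) → Set (Set κ.ord.ToType),
    ∀ A : γ.ToType → Set (Set κ.ord.ToType), LegalMoves κ γ A →
      (∀ α, IsUltra κ (A α) (σ α fun β => A β.1)) ∧
      (∀ α, ∀ α' < α, (σ α' fun β => A β.1) ⊆ (σ α fun β => A β.1)) ∧
      ∃ W, IsUltra κ (generated κ (⋃ α, A α)) W ∧ ∀ α, (σ α fun β => A β.1) ⊆ W

/-- The set chosen by Player II at stage `α` of the Ulam game if she uses the strategy `σ` (which
gives `true` for the first and `false` for the second piece, in answer to the moves of Player I so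
far) and Player I plays the pairs `P α`. -/
def chosen {κ : Cardinal.{u}} {γ : Ordinal.{u}}
    (σ : (α : γ.ToType) → (Iic α → Set κ.ord.ToType × Set κ.ord.ToType) → Bool)
    (P : γ.ToType → Set κ.ord.ToType × Set κ.ord.ToType) (α : γ.ToType) : Set κ.ord.ToType :=
  if (σ α fun β => P β.1) = true then (P α).1 else (P α).2

/-- Player II has a winning strategy in the Ulam game of length `γ` on `κ`: at stage `α` Player I
plays a partition into two pieces of the set `C α`, the intersection of the pieces chosen by Player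
II at the stages `β < α` (so `C 0 = κ`), and Player II chooses a piece. She wins if the intersection
of all the chosen pieces has at least two elements. -/
def WinsUlam (κ : Cardinal.{u}) (γ : Ordinal.{u}) : Prop :=
  ∃ σ : (α : γ.ToType) → (Iic α → Set κ.ord.ToType × Set κ.ord.ToType) → Bool,
    ∀ P : γ.ToType → Set κ.ord.ToType × Set κ.ord.ToType,
      (∀ α, (P α).1 ∪ (P α).2 = ⋂ β : Iio α, chosen σ P β.1 ∧ Disjoint (P α).1 (P α).2) →
        2 ≤ #(⋂ α, chosen σ P α : Set κ.ord.ToType)

/-- `lam` is a measurable cardinal: it is uncountable and there is a nonprincipal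
`lam`-complete ultrafilter on `lam`. -/
def IsMeasurable (lam : Cardinal.{u}) : Prop :=
  ℵ₀ < lam ∧ ∃ U : Ultrafilter lam.ord.ToType, (∀ x, ({x} : Set lam.ord.ToType) ∉ U) ∧
    ∀ S : Set (Set lam.ord.ToType), #S < lam → (∀ a ∈ S, a ∈ U) → ⋂₀ S ∈ U

/-- Player II wins the Ulam games of length `< lam` on all larger cardinals. -/
theorem winsUlam {lam κ : Cardinal.{u}} (hlam : IsMeasurable lam) (hκ : lam ≤ κ) {γ : Ordinal.{u}}
    (hγ : γ < lam.ord) : WinsUlam κ γ := by
  classical
  obtain ⟨hω, U, hU1, hU2⟩ := hlam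
  have hj : #(lam.ord.ToType) ≤ #(κ.ord.ToType) := by rwa [mk_pt, mk_pt]
  obtain ⟨j⟩ := hj
  have hγ' : #(γ.ToType) < lam := by rw [Cardinal.mk_toType]; exact lt_ord.1 hγ
  have hinter : ∀ {ι : Type u}, #ι < lam → ∀ a : ι → Set lam.ord.ToType, (∀ i, a i ∈ U) →
      ⋂ i, a i ∈ U := by
    intro ι hι a ha
    have := hU2 (range a) (mk_range_le.trans_lt hι) (by rintro _ ⟨i, rfl⟩; exact ha i)
    rwa [sInter_range] at this
  refine ⟨fun α p => decide (j ⁻¹' (p ⟨α, Set.mem_Iic.2 le_rfl⟩).1 ∈ U), fun P hP => ?_⟩
  set σ : (α : γ.ToType) → (Iic α → Set κ.ord.ToType × Set κ.ord.ToType) → Bool :=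
    fun α p => decide (j ⁻¹' (p ⟨α, Set.mem_Iic.2 le_rfl⟩).1 ∈ U) with hσ
  have key : ∀ α, j ⁻¹' (chosen σ P α) ∈ U := by
    intro α
    induction α using WellFoundedLT.induction with
    | ind α ih =>
      have h1 : j ⁻¹' (⋂ β : Iio α, chosen σ P β.1) ∈ U := by
        rw [preimage_iInter]
        refine hinter ((mk_subtype_le _).trans_lt hγ') _ ?_
        rintro ⟨β, hβ⟩
        exact ih β hβ
      rw [← (hP α).1, preimage_union, Ultrafilter.union_mem_iff] at h1
      unfold chosen
      by_cases h2 : j ⁻¹' (P α).1 ∈ U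
      · have h3 : (σ α fun β => P β.1) = true := by simp only [hσ, decide_eq_true_eq]; exact h2
        rw [if_pos h3]
        exact h2
      · have h3 : ¬ (σ α fun β => P β.1) = true := by simp only [hσ, decide_eq_true_eq]; exact h2
        rw [if_neg h3]
        exact h1.resolve_left h2
  have hfin : j ⁻¹' (⋂ α, chosen σ P α) ∈ U := by
    rw [preimage_iInter]
    exact hinter hγ' _ key
  -- a set in a nonprincipal ultrafilter has two elements
  obtain ⟨x, hx⟩ := U.nonempty_of_mem hfin
  have h4 : j ⁻¹' (⋂ α, chosen σ P α) \ {x} ∈ U :=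
    Filter.inter_mem hfin ((Ultrafilter.compl_mem_iff_notMem).2 (hU1 x))
  obtain ⟨y, hy, hyx⟩ := U.nonempty_of_mem h4
  rw [two_le_iff]
  refine ⟨⟨j x, hx⟩, ⟨j y, hy⟩, ?_⟩
  intro h
  have : j x = j y := congrArg Subtype.val h
  exact hyx (j.injective this.symm)

/-- Player II loses the game `G*` if Player I has a move without legal answer. -/
theorem not_winsStar {κ : Cardinal.{u}} {A : Set (Set κ.ord.ToType)} (hA : IsAlgebra κ A)
    (hAκ : #A = κ) (hsing : ∀ x, {x} ∈ A) (hno : ∀ U, ¬ IsUltra κ A U) {γ : Ordinal.{u}}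
    (hγ : γ ≠ 0) : ¬ WinsStar κ γ := by
  rintro ⟨σ, hσ⟩
  have hne : Nonempty γ.ToType := by
    rw [← Cardinal.mk_ne_zero_iff, Cardinal.mk_toType]
    simpa using hγ
  obtain ⟨α⟩ := hne
  have h1 := (hσ (fun _ => A) (fun α => ⟨hA, hAκ, hsing, fun β _ => subset_rfl⟩)).1 α
  exact hno _ h1

theorem result (lam : Cardinal.{u}) (hlam : IsMeasurable lam)
    (hex : ∃ μ : Cardinal.{u}, lam < μ ∧ μ.IsInaccessible) :
    ∃ κ : Cardinal.{u}, lam < κ ∧ κ.IsInaccessible ∧
      ∀ γ : Ordinal.{u}, Order.IsSuccLimit γ → γ < lam.ord → WinsUlam κ γ ∧ ¬ WinsStar κ γ := by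
  obtain ⟨κ, ⟨hκ1, hκ2⟩, hmin⟩ := (Cardinal.lt_wf.{u}).has_min {μ : Cardinal.{u} |
    lam < μ ∧ μ.IsInaccessible} hex
  refine ⟨κ, hκ1, hκ2, fun γ hγ hγlam => ⟨winsUlam hlam hκ1.le hγlam, ?_⟩⟩
  obtain ⟨A, hA, hAκ, hsing, hno⟩ := exists_no_ultra hκ2 hlam.1.le hκ1
    (fun ν h1 h2 h3 => hmin ν ⟨h1, h3⟩ h2)
  exact not_winsStar hA hAκ hsing hno hγ.ne_bot

end Pool.Agent.Results.MP_0eb1a9_lc.UlamWithoutStar
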